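/-
helper63. LSQ, row SUA: the supply of the first kind (MP_cae670_nt).
-/
import Pool.Agent.H85.LSP.Def2

set_option autoImplicit false

namespace Pool.LSP

open Polynomial Filter Topology Finset
open scoped ComplexConjugate

namespace SUAx

theorem aeval_cj (A : ℤ[X]) (α : ℂ) : aeval (conj α) A = conj (aeval α A) :=
  Polynomial.aeval_algHom_apply (starRingEnd ℂ).toIntAlgHom α A

theorem mem_Rt {Q : ℤ[X]} (hQ : Q ≠ 0) (α : ℂ) : α ∈ Rt Q ↔ aeval α Q = 0 := by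
  unfold Rt
  have hinj : Function.Injective (Int.castRingHom ℂ) := Int.cast_injective
  have h0 : Q.map (Int.castRingHom ℂ) ≠ 0 := by
    rw [Ne, Polynomial.map_eq_zero_iff hinj]
    exact hQ
  rw [Polynomial.mem_roots h0, Polynomial.IsRoot.def, Polynomial.eval_map, Polynomial.aeval_def]
  rfl

theorem cj_Rt {Q : ℤ[X]} (hQ : Q ≠ 0) {α : ℂ} (h : α ∈ Rt Q) : conj α ∈ Rt Q := by
  rw [mem_Rt hQ] at h ⊢
  rw [aeval_cj, h, map_zero]

open Classical in
/-- the roots of modulus at most one -/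
noncomputable def Inn (Q : ℤ[X]) : Finset ℂ := (Rt Q).toFinset.filter (fun α => ¬ 1 < ‖α‖)

open Classical in
theorem us_split (Q : ℤ[X]) (w : ℂ → ℂ) (A : ℤ[X]) (n : ℤ) :
    us (Rt Q).toFinset w A n = us (Out Q) w A n + us (Inn Q) w A n := by
  unfold us Out Inn
  rw [Finset.sum_filter_add_sum_filter_not]

theorem us_cj (S : Finset ℂ) (w : ℂ → ℂ) (A : ℤ[X]) (n : ℤ) (hS : ∀ α ∈ S, conj α ∈ S)
    (hw : ∀ α, w (conj α) = conj (w α)) : conj (us S w A n) = us S w A n := by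
  unfold us
  rw [map_sum]
  refine Finset.sum_nbij' (fun α => conj α) (fun α => conj α) hS hS ?_ ?_ ?_
  · intro α _
    exact Complex.conj_conj α
  · intro α _
    exact Complex.conj_conj α
  · intro α _
    rw [map_mul, map_mul, hw, aeval_cj, map_zpow₀]

theorem us_real (S : Finset ℂ) (w : ℂ → ℂ) (A : ℤ[X]) (n : ℤ) (hS : ∀ α ∈ S, conj α ∈ S)
    (hw : ∀ α, w (conj α) = conj (w α)) : us S w A n = (((us S w A n).re : ℝ) : ℂ) := by
  have h := us_cj S w A n hS hw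
  exact (Complex.conj_eq_iff_re.mp h).symm

theorem mem_Out {Q : ℤ[X]} {α : ℂ} : α ∈ Out Q ↔ α ∈ Rt Q ∧ 1 < ‖α‖ := by
  classical
  unfold Out
  simp

theorem mem_Inn {Q : ℤ[X]} {α : ℂ} : α ∈ Inn Q ↔ α ∈ Rt Q ∧ ‖α‖ ≤ 1 := by
  classical
  unfold Inn
  simp

theorem g_mem (Q : ℤ[X]) (w : ℂ → ℂ) (A : ℤ[X]) (m : ℤ) :
    (fun n : ℤ => (us (Out Q) w A (n + m)).re) ∈ Vo Q := by
  have h : (fun n : ℤ => (us (Out Q) w A (n + m)).re) =
      ∑ α ∈ Out Q, (fun n : ℤ => ((w α * aeval α A * α ^ m) * α ^ n).re) := by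
    funext n
    rw [Finset.sum_apply]
    unfold us
    rw [Complex.re_sum]
    refine Finset.sum_congr rfl fun α hα => ?_
    have h0 : α ≠ 0 := by
      intro h
      have := (mem_Out.mp hα).2
      rw [h, norm_zero] at this
      linarith
    rw [zpow_add₀ h0]
    congr 1
    ring
  rw [h]
  refine Submodule.sum_mem _ fun α hα => Submodule.subset_span ?_
  exact ⟨α, hα, _, rfl⟩

/-- the recurrence -/
theorem us_rec (Q : ℤ[X]) (hQ : Q ≠ 0) (w : ℂ → ℂ) (A : ℤ[X]) (n : ℕ) :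
    ∑ i ∈ range (Q.natDegree + 1), (Q.coeff i : ℂ) * us (Rt Q).toFinset w A ((n + i : ℕ) : ℤ) = 0 := by
  unfold us
  simp_rw [Finset.mul_sum]
  rw [Finset.sum_comm]
  refine Finset.sum_eq_zero fun α hα => ?_
  have hα' : aeval α Q = 0 := (mem_Rt hQ α).mp (Multiset.mem_toFinset.mp hα)
  rw [Polynomial.aeval_eq_sum_range] at hα'
  have h2 : ∑ i ∈ range (Q.natDegree + 1), (Q.coeff i : ℂ) * (w α * aeval α A * α ^ ((n + i : ℕ) : ℤ)) =
      (w α * aeval α A * α ^ n) * ∑ i ∈ range (Q.natDegree + 1), Q.coeff i • α ^ i := by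
    rw [Finset.mul_sum]
    refine Finset.sum_congr rfl fun i _ => ?_
    rw [zpow_natCast, pow_add, zsmul_eq_mul]
    ring
  rw [h2, hα', mul_zero]

/-- integrality of the first terms -/
theorem us_int (Q : ℤ[X]) (w : ℂ → ℂ) (hw : Wt Q w) (B : ℤ[X]) (T n : ℕ)
    (h : n + B.natDegree ≤ T) :
    ∃ x : ℤ, us (Rt Q).toFinset w (C (Q.leadingCoeff ^ T) * B) n = x := by
  choose X hX using hw.int
  refine ⟨∑ j ∈ range (B.natDegree + 1), B.coeff j * Q.leadingCoeff ^ (T - (n + j)) * X (n + j), ?_⟩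
  have h1 : us (Rt Q).toFinset w (C (Q.leadingCoeff ^ T) * B) n =
      ∑ j ∈ range (B.natDegree + 1), (B.coeff j : ℂ) * ((Q.leadingCoeff : ℂ) ^ T *
        ∑ α ∈ (Rt Q).toFinset, w α * α ^ (n + j)) := by
    unfold us
    have h2 : ∀ α : ℂ, w α * aeval α (C (Q.leadingCoeff ^ T) * B) * α ^ (n : ℤ) =
        ∑ j ∈ range (B.natDegree + 1), (B.coeff j : ℂ) * ((Q.leadingCoeff : ℂ) ^ T *
          (w α * α ^ (n + j))) := by
      intro α
      rw [map_mul, aeval_C, Polynomial.aeval_eq_sum_range, zpow_natCast, Finset.mul_sum,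
        Finset.mul_sum, Finset.sum_mul]
      refine Finset.sum_congr rfl fun j _ => ?_
      rw [zsmul_eq_mul, pow_add, algebraMap_int_eq, eq_intCast, Int.cast_pow]
      ring
    rw [Finset.sum_congr rfl (fun α _ => h2 α), Finset.sum_comm]
    refine Finset.sum_congr rfl fun j _ => ?_
    rw [← Finset.mul_sum, ← Finset.mul_sum]
  rw [h1]
  push_cast
  refine Finset.sum_congr rfl fun j hj => ?_
  have hj' : n + j ≤ T := by
    have := Finset.mem_range.mp hj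
    omega
  have h3 : (Q.leadingCoeff : ℂ) ^ T = (Q.leadingCoeff : ℂ) ^ (T - (n + j)) * (Q.leadingCoeff : ℂ) ^ (n + j) := by
    rw [← pow_add, Nat.sub_add_cancel hj']
  rw [h3, ← hX (n + j)]
  ring

/-- the part inside the closed unit disc is small -/
theorem inn_small (Q : ℤ[X]) (w : ℂ → ℂ) (A : ℤ[X]) (δ : ℝ)
    (h : ∀ γ ∈ Rt Q, ‖γ‖ ≤ 1 → ‖aeval γ A‖ ≤ δ) (n : ℕ) :
    ‖us (Inn Q) w A n‖ ≤ (∑ γ ∈ Inn Q, ‖w γ‖) * δ := by
  unfold us
  refine (norm_sum_le _ _).trans ?_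
  rw [Finset.sum_mul]
  refine Finset.sum_le_sum fun γ hγ => ?_
  obtain ⟨h1, h2⟩ := mem_Inn.mp hγ
  rw [norm_mul, norm_mul, zpow_natCast, norm_pow]
  have h3 := h γ h1 h2
  have h4 : ‖γ‖ ^ n ≤ 1 := pow_le_one₀ (norm_nonneg _) h2
  calc ‖w γ‖ * ‖aeval γ A‖ * ‖γ‖ ^ n ≤ ‖w γ‖ * ‖aeval γ A‖ * 1 := by
        apply mul_le_mul_of_nonneg_left h4
        positivity
    _ = ‖w γ‖ * ‖aeval γ A‖ := mul_one _
    _ ≤ ‖w γ‖ * δ := mul_le_mul_of_nonneg_left h3 (norm_nonneg _)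

/-- a real number `u`, not an integer, with `q u` an integer -/
theorem nr_ge (q y : ℤ) (u : ℝ) (hq : q ≠ 0) (h : (q : ℝ) * u = y) (hu : ¬ ∃ x : ℤ, u = x) :
    1 / |(q : ℝ)| ≤ nr u := by
  unfold nr
  have hq' : (0 : ℝ) < |(q : ℝ)| := abs_pos.mpr (Int.cast_ne_zero.mpr hq)
  rw [div_le_iff₀ hq', ← abs_mul]
  have h1 : (u - round u) * (q : ℝ) = ((y - q * round u : ℤ) : ℝ) := by
    push_cast
    rw [← h]
    ring
  rw [h1, ← Int.cast_abs]
  have h2 : y - q * round u ≠ 0 := by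
    intro h0
    apply hu
    refine ⟨round u, ?_⟩
    rw [h0, Int.cast_zero] at h1
    rcases mul_eq_zero.mp h1 with h3 | h3
    · linarith
    · exact absurd h3 (Int.cast_ne_zero.mpr hq)
  have h3 : 1 ≤ |y - q * round u| := Int.one_le_abs h2
  exact_mod_cast h3

end SUAx

open SUAx in
theorem t_sua (hWTS : WTSStmt) (hPHL : PHLStmt) (_hDVD : DVDStmt) (hFAT : FATStmt) : SUAStmt := by
  classical
  intro Q hirr hdeg hnd hout hlead
  have hQ : Q ≠ 0 := hirr.ne_zero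
  obtain ⟨w, hw⟩ := hWTS Q hnd hdeg
  have hq : Q.leadingCoeff ≠ 0 := Polynomial.leadingCoeff_ne_zero.mpr hQ
  have hq' : (0 : ℝ) < |(Q.leadingCoeff : ℝ)| := abs_pos.mpr (Int.cast_ne_zero.mpr hq)
  set s₀ : ℝ := 1 / (2 * |(Q.leadingCoeff : ℝ)|) with hs₀
  have hs₀pos : 0 < s₀ := by positivity
  refine ⟨s₀, hs₀pos, ?_⟩
  intro δ L hδ
  set Ω : ℝ := ∑ γ ∈ Inn Q, ‖w γ‖ with hΩ
  have hΩ0 : 0 ≤ Ω := Finset.sum_nonneg fun _ _ => norm_nonneg _
  set δ' : ℝ := min δ s₀ / (1 + Ω) with hδ'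
  have hδ'pos : 0 < δ' := by positivity
  have hΩδ : Ω * δ' ≤ min δ s₀ := by
    rw [hδ']
    have : Ω * (min δ s₀ / (1 + Ω)) = min δ s₀ * (Ω / (1 + Ω)) := by ring
    rw [this]
    have h1 : Ω / (1 + Ω) ≤ 1 := by
      rw [div_le_one (by positivity)]
      linarith
    have h2 : 0 ≤ min δ s₀ := by positivity
    nlinarith
  set T : ℕ := L + Q.natDegree + Q.natDegree with hT
  obtain ⟨B, hB0, hBdeg, hBs⟩ := hPHL Q hnd hout δ' (Q.leadingCoeff ^ T) hδ'pos (pow_ne_zero _ hq)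
  set A : ℤ[X] := C (Q.leadingCoeff ^ T) * B with hA
  have hA0 : A ≠ 0 := mul_ne_zero (by
    rw [Ne, Polynomial.C_eq_zero]
    exact pow_ne_zero _ hq) hB0
  have hAdeg : A.natDegree < Q.natDegree := by
    rw [hA, Polynomial.natDegree_C_mul (pow_ne_zero _ hq)]
    exact hBdeg
  have hnot : ∃ n : ℕ, ¬ ∃ x : ℤ, us (Rt Q).toFinset w A n = x := by
    by_contra hcon
    push Not at hcon
    exact hlead (hFAT Q w hirr hdeg hnd hw A hA0 hAdeg hcon)
  set n1 := Nat.find hnot with hn1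
  have hn1s : ¬ ∃ x : ℤ, us (Rt Q).toFinset w A n1 = x := Nat.find_spec hnot
  have hn1m : ∀ m : ℕ, m < n1 → ∃ x : ℤ, us (Rt Q).toFinset w A m = x := by
    intro m hm
    by_contra hcon
    exact Nat.find_min hnot hm hcon
  have hn1L : L + Q.natDegree < n1 := by
    by_contra hcon
    push Not at hcon
    exact hn1s (us_int Q w hw B T n1 (by omega))
  have hcl : ∀ α ∈ (Rt Q).toFinset, conj α ∈ (Rt Q).toFinset := by
    intro α hα
    exact Multiset.mem_toFinset.mpr (cj_Rt hQ (Multiset.mem_toFinset.mp hα))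
  -- the real number `u`
  set u : ℝ := (us (Rt Q).toFinset w A n1).re with hu
  have hure : us (Rt Q).toFinset w A n1 = (u : ℂ) := us_real _ w A n1 hcl hw.cj
  have hunot : ¬ ∃ x : ℤ, u = x := by
    rintro ⟨x, hx⟩
    apply hn1s
    refine ⟨x, ?_⟩
    rw [hure, hx]
    push_cast
    rfl
  have hqu : ∃ y : ℤ, (Q.leadingCoeff : ℝ) * u = y := by
    have hrec := us_rec Q hQ w A (n1 - Q.natDegree)
    rw [Finset.sum_range_succ] at hrec
    have h1 : ∀ i : ℕ, ∃ x : ℤ, i < Q.natDegree →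
        us (Rt Q).toFinset w A ((n1 - Q.natDegree + i : ℕ) : ℤ) = x := by
      intro i
      by_cases hi : i < Q.natDegree
      · obtain ⟨x, hx⟩ := hn1m (n1 - Q.natDegree + i) (by omega)
        exact ⟨x, fun _ => hx⟩
      · exact ⟨0, fun h => absurd h hi⟩
    choose X hX using h1
    refine ⟨-∑ i ∈ range Q.natDegree, Q.coeff i * X i, ?_⟩
    have h2 : ∑ i ∈ range Q.natDegree, (Q.coeff i : ℂ) *
        us (Rt Q).toFinset w A ((n1 - Q.natDegree + i : ℕ) : ℤ) =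
        ((∑ i ∈ range Q.natDegree, Q.coeff i * X i : ℤ) : ℂ) := by
      rw [Int.cast_sum]
      refine Finset.sum_congr rfl fun i hi => ?_
      rw [hX i (Finset.mem_range.mp hi), Int.cast_mul]
    have h3 : n1 - Q.natDegree + Q.natDegree = n1 := by omega
    rw [h2, h3, hure] at hrec
    have h4 : ((Q.leadingCoeff : ℝ) * u : ℝ) = ((-∑ i ∈ range Q.natDegree, Q.coeff i * X i : ℤ) : ℝ) := by
      have h5 : (((Q.leadingCoeff : ℝ) * u : ℝ) : ℂ) =
          (((-∑ i ∈ range Q.natDegree, Q.coeff i * X i : ℤ) : ℝ) : ℂ) := by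
        push_cast at hrec ⊢
        have h6 : (Q.leadingCoeff : ℂ) = (Q.coeff Q.natDegree : ℂ) := rfl
        rw [h6]
        linear_combination hrec
      exact_mod_cast h5
    exact h4
  obtain ⟨y, hy⟩ := hqu
  have hnru := nr_ge Q.leadingCoeff y u hq hy hunot
  -- the difference
  have hdiff : ∀ m : ℕ, |(us (Rt Q).toFinset w A m).re - (us (Out Q) w A m).re| ≤ min δ s₀ := by
    intro m
    have h1 := us_split Q w A m
    have h2 : (us (Rt Q).toFinset w A m).re - (us (Out Q) w A m).re = (us (Inn Q) w A m).re := by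
      rw [h1, Complex.add_re]
      ring
    rw [h2]
    exact ((Complex.abs_re_le_norm _).trans (inn_small Q w A δ' hBs m)).trans hΩδ
  refine ⟨fun n : ℤ => (us (Out Q) w A (n + n1)).re, g_mem Q w A n1, ?_, ?_⟩
  · intro n hn1' hn2
    obtain ⟨m, hm⟩ : ∃ m : ℕ, (m : ℤ) = n + n1 := ⟨(n + n1).toNat, by omega⟩
    have hmlt : m < n1 := by omega
    obtain ⟨x, hx⟩ := hn1m m hmlt
    have h1 := hdiff m
    have h2 : (us (Rt Q).toFinset w A m).re = (x : ℝ) := by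
      rw [hx]
      exact Complex.intCast_re x
    rw [h2] at h1
    show nr ((us (Out Q) w A (n + n1)).re) ≤ δ
    rw [← hm]
    have h3 := nr_le_int ((us (Out Q) w A m).re) x
    rw [abs_sub_comm] at h3
    exact h3.trans (h1.trans (min_le_left _ _))
  · show s₀ ≤ nr ((us (Out Q) w A (0 + n1)).re)
    rw [zero_add]
    have h1 := hdiff n1
    have h2 := nr_le_add u ((us (Out Q) w A n1).re)
    have h3 := h1.trans (min_le_right _ _)
    have h4 : 1 / |(Q.leadingCoeff : ℝ)| = 2 * s₀ := by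
      rw [hs₀]
      field_simp
    linarith

end Pool.LSP
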